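import Mathlib

set_option autoImplicit false

namespace Pool.Agent.Work.MP_8976f7_nt

/-- The integer partitioned by the multiplicity function `c`, where `c (i, j)` is the number of
parts equal to `m ^ i` in colour `j`. -/
noncomputable def weight (m k : ℕ) (c : ℕ × Fin k →₀ ℕ) : ℕ :=
  c.sum (fun ij a => a * m ^ ij.1)

/-- `A m k n`: the number of `k`-coloured `m`-ary partitions of `n`. -/
noncomputable def A (m k n : ℕ) : ℕ :=
  Nat.card {c : ℕ × Fin k →₀ ℕ // weight m k c = n}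

/-- The set `E_p = {(p - 1)(u p ^ s - 1) : s ≥ 0, 1 ≤ u ≤ p - 1}`. -/
def exceptional (p : ℕ) : Set ℕ :=
  {k | ∃ s u : ℕ, 1 ≤ u ∧ u ≤ p - 1 ∧ k = (p - 1) * (u * p ^ s - 1)}

end Pool.Agent.Work.MP_8976f7_nt
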