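import Mathlib
import Pool.Agent.Work.MP_8976f7_nt.Defs

set_option autoImplicit false

namespace Pool.Agent.Work.MP_8976f7_nt

open PowerSeries

/-- splitting off the colour multiplicities of the part `1 = m ^ 0` -/
noncomputable def splitEquiv (k : ℕ) :
    (ℕ × Fin k →₀ ℕ) ≃ (Fin k →₀ ℕ) × (ℕ × Fin k →₀ ℕ) :=
  (Finsupp.domCongr (M := ℕ) (((Equiv.natSumPUnitEquivNat.{0}).symm.prodCongr (Equiv.refl (Fin k))).trans
    ((Equiv.sumProdDistrib ℕ PUnit (Fin k)).trans
      ((Equiv.sumComm _ _).trans
        (Equiv.sumCongr (Equiv.punitProd (Fin k)) (Equiv.refl (ℕ × Fin k))))))).toEquiv.trans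
    (Finsupp.sumFinsuppEquivProdFinsupp)

lemma splitEquiv_fst (k : ℕ) (c : ℕ × Fin k →₀ ℕ) (j : Fin k) :
    (splitEquiv k c).1 j = c (0, j) := by
  simp [splitEquiv]
  rfl

lemma splitEquiv_snd (k : ℕ) (c : ℕ × Fin k →₀ ℕ) (i : ℕ) (j : Fin k) :
    (splitEquiv k c).2 (i, j) = c (i + 1, j) := by
  simp [splitEquiv]
  rfl

lemma weight_add (m k : ℕ) (c d : ℕ × Fin k →₀ ℕ) :
    weight m k (c + d) = weight m k c + weight m k d := by
  unfold weight
  rw [Finsupp.sum_add_index']
  · intro a; simp
  · intro a b c; ring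

lemma weight_single (m k : ℕ) (ij : ℕ × Fin k) (a : ℕ) :
    weight m k (Finsupp.single ij a) = a * m ^ ij.1 := by
  unfold weight
  rw [Finsupp.sum_single_index]
  simp

lemma splitEquiv_add (k : ℕ) (c d : ℕ × Fin k →₀ ℕ) :
    splitEquiv k (c + d) = splitEquiv k c + splitEquiv k d := by
  ext j
  · simp [splitEquiv_fst]
  · obtain ⟨i, j⟩ := j
    simp [splitEquiv_snd]

lemma weight_split (m k : ℕ) (c : ℕ × Fin k →₀ ℕ) :
    weight m k c = (splitEquiv k c).1.degree + m * weight m k (splitEquiv k c).2 := by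
  induction c using Finsupp.induction_linear with
  | zero =>
    have h : splitEquiv k 0 = 0 := by
      ext j
      · simp [splitEquiv_fst]
      · obtain ⟨i, j⟩ := j
        simp [splitEquiv_snd]
    rw [h]
    simp [weight]
  | add f g hf hg =>
    rw [splitEquiv_add, weight_add, hf, hg, Prod.fst_add, Prod.snd_add, weight_add, map_add]
    ring
  | single ij a =>
    obtain ⟨i, j⟩ := ij
    cases i with
    | zero =>
      have h : splitEquiv k (Finsupp.single (0, j) a) = (Finsupp.single j a, 0) := by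
        ext x
        · simp [splitEquiv_fst, Finsupp.single_apply]
        · obtain ⟨i, x⟩ := x
          simp [splitEquiv_snd]
      rw [h, weight_single]
      simp [weight]
    | succ i =>
      have h : splitEquiv k (Finsupp.single (i + 1, j) a) = (0, Finsupp.single (i, j) a) := by
        ext x
        · simp [splitEquiv_fst]
        · obtain ⟨i', x⟩ := x
          simp [splitEquiv_snd, Finsupp.single_apply]
      rw [h, weight_single, weight_single]
      simp
      ring

/-- The fibres of `weight` in terms of those of the split. -/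
noncomputable def fibreEquiv (m k n : ℕ) :
    {c : ℕ × Fin k →₀ ℕ // weight m k c = n} ≃
      Σ st : Finset.HasAntidiagonal.antidiagonal n, {f : Fin k →₀ ℕ // f.degree = st.1.1} ×
        {c : ℕ × Fin k →₀ ℕ // m * weight m k c = st.1.2} where
  toFun c := ⟨⟨((splitEquiv k c.1).1.degree, m * weight m k (splitEquiv k c.1).2), by
      rw [Finset.HasAntidiagonal.mem_antidiagonal, ← weight_split, c.2]⟩,
      ⟨⟨(splitEquiv k c.1).1, rfl⟩, ⟨(splitEquiv k c.1).2, rfl⟩⟩⟩
  invFun x := ⟨(splitEquiv k).symm (x.2.1.1, x.2.2.1), by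
      rw [weight_split, Equiv.apply_symm_apply]
      have h := x.1.2
      rw [Finset.HasAntidiagonal.mem_antidiagonal] at h
      rw [x.2.1.2, x.2.2.2, h]⟩
  left_inv c := by
    ext1
    simp
  right_inv x := by
    obtain ⟨⟨⟨s, t⟩, hst⟩, ⟨f, hf⟩, ⟨c, hc⟩⟩ := x
    simp only at hf hc
    subst hf hc
    simp only [Equiv.apply_symm_apply]
    rw [Sigma.mk.injEq]
    refine ⟨?_, ?_⟩
    · ext <;> simp
    · have e1 : ((splitEquiv k) ((splitEquiv k).symm (f, c))).1 = f := by simp
      have e2 : ((splitEquiv k) ((splitEquiv k).symm (f, c))).2 = c := by simp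
      congr!

lemma finite_fibre (m k : ℕ) (hm : 2 ≤ m) (n : ℕ) :
    Finite {c : ℕ × Fin k →₀ ℕ // weight m k c = n} := by
  induction n using Nat.strong_induction_on with
  | _ n ih =>
    rcases Nat.eq_zero_or_pos n with rfl | hn
    · have : Subsingleton {c : ℕ × Fin k →₀ ℕ // weight m k c = 0} := by
        constructor
        rintro ⟨c, hc⟩ ⟨d, hd⟩
        have key : ∀ c : ℕ × Fin k →₀ ℕ, weight m k c = 0 → c = 0 := by
          intro c hc
          by_contra hne
          obtain ⟨x, hx⟩ := Finsupp.support_nonempty_iff.mpr hne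
          have h1 : c x * m ^ x.1 ≤ weight m k c := by
            unfold weight Finsupp.sum
            exact Finset.single_le_sum (f := fun a => c a * m ^ a.1) (fun _ _ => Nat.zero_le _) hx
          rw [hc] at h1
          have h2 : 0 < c x := Nat.pos_of_ne_zero (Finsupp.mem_support_iff.mp hx)
          have h3 : 0 < m ^ x.1 := by positivity
          have := Nat.mul_pos h2 h3
          omega
        rw [Subtype.mk.injEq, key c hc, key d hd]
      infer_instance
    · have h1 : ∀ t ≤ n, Finite {c : ℕ × Fin k →₀ ℕ // m * weight m k c = t} := by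
        intro t ht
        by_cases hd : m ∣ t
        · obtain ⟨q, rfl⟩ := hd
          have hq : q < n := by
            rcases Nat.eq_zero_or_pos q with h0 | h0
            · omega
            · nlinarith
          have := ih q hq
          refine Finite.of_injective
            (β := {c : ℕ × Fin k →₀ ℕ // weight m k c = q}) (fun c => ⟨c.1, ?_⟩) ?_
          · exact Nat.eq_of_mul_eq_mul_left (by omega) c.2
          · rintro ⟨c, hc⟩ ⟨d, hd⟩ h
            simpa using h
        · have : IsEmpty {c : ℕ × Fin k →₀ ℕ // m * weight m k c = t} := by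
            constructor
            rintro ⟨c, hc⟩
            exact hd ⟨_, hc.symm⟩
          infer_instance
      have h2 : ∀ s : ℕ, Finite {f : Fin k →₀ ℕ // f.degree = s} := by
        intro s
        refine Finite.of_injective (β := (Finset.finsuppAntidiag (Finset.univ : Finset (Fin k)) s))
          (fun f => ⟨f.1, ?_⟩) ?_
        · rw [Finset.mem_finsuppAntidiag]
          refine ⟨?_, Finset.subset_univ _⟩
          rw [← Finsupp.degree_eq_sum]
          exact f.2
        · rintro ⟨c, hc⟩ ⟨d, hd⟩ h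
          simpa using h
      have h3 : ∀ st : Finset.HasAntidiagonal.antidiagonal n, Finite ({f : Fin k →₀ ℕ // f.degree = st.1.1} ×
          {c : ℕ × Fin k →₀ ℕ // m * weight m k c = st.1.2}) := by
        rintro ⟨⟨s, t⟩, hst⟩
        have := h1 t (by rw [Finset.HasAntidiagonal.mem_antidiagonal] at hst; omega)
        have := h2 s
        infer_instance
      exact Finite.of_equiv _ (fibreEquiv m k n).symm


lemma finite_deg (k s : ℕ) : Finite {f : Fin k →₀ ℕ // f.degree = s} := by
  refine Finite.of_injective (β := (Finset.finsuppAntidiag (Finset.univ : Finset (Fin k)) s))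
    (fun f => ⟨f.1, ?_⟩) ?_
  · rw [Finset.mem_finsuppAntidiag]
    refine ⟨?_, Finset.subset_univ _⟩
    rw [← Finsupp.degree_eq_sum]
    exact f.2
  · rintro ⟨c, hc⟩ ⟨d, hd⟩ h
    simpa using h

lemma card_deg (k s : ℕ) : Nat.card {f : Fin k →₀ ℕ // f.degree = s} =
    (Finset.finsuppAntidiag (Finset.univ : Finset (Fin k)) s).card := by
  rw [← Nat.card_eq_finsetCard]
  refine Nat.card_congr ⟨fun f => ⟨f.1, ?_⟩, fun f => ⟨f.1, ?_⟩, fun f => rfl, fun f => rfl⟩
  · rw [Finset.mem_finsuppAntidiag]
    refine ⟨?_, Finset.subset_univ _⟩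
    rw [← Finsupp.degree_eq_sum]
    exact f.2
  · have h := f.2
    rw [Finset.mem_finsuppAntidiag] at h
    rw [Finsupp.degree_eq_sum]
    exact h.1

lemma mk_card_deg (R : Type*) [CommRing R] (k : ℕ) :
    (1 - X : R⟦X⟧) ^ k *
      PowerSeries.mk (fun s => (Nat.card {f : Fin k →₀ ℕ // f.degree = s} : R)) = 1 := by
  have h : PowerSeries.mk (fun s => (Nat.card {f : Fin k →₀ ℕ // f.degree = s} : R)) =
      (PowerSeries.mk 1 : R⟦X⟧) ^ k := by
    ext s
    have h2 : (PowerSeries.mk 1 : R⟦X⟧) ^ k =
        ∏ _j ∈ (Finset.univ : Finset (Fin k)), (PowerSeries.mk 1 : R⟦X⟧) := by simp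
    rw [h2, PowerSeries.coeff_prod, PowerSeries.coeff_mk, card_deg]
    simp
  rw [h, ← mul_pow, mul_comm, PowerSeries.mk_one_mul_one_sub_eq_one, one_pow]

lemma A_rec (m k : ℕ) (hm : 2 ≤ m) (n : ℕ) : A m k n =
    ∑ st ∈ Finset.HasAntidiagonal.antidiagonal n,
      Nat.card {f : Fin k →₀ ℕ // f.degree = st.1} *
        (if m ∣ st.2 then A m k (st.2 / m) else 0) := by
  have h1 : ∀ t : ℕ, Finite {c : ℕ × Fin k →₀ ℕ // m * weight m k c = t} := by
    intro t
    have := finite_fibre m k hm (t / m)
    refine Finite.of_injective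
      (β := {c : ℕ × Fin k →₀ ℕ // weight m k c = t / m}) (fun c => ⟨c.1, ?_⟩) ?_
    · have h := c.2
      exact (Nat.div_eq_of_eq_mul_right (by omega) h.symm).symm
    · rintro ⟨c, hc⟩ ⟨d, hd⟩ h
      simpa using h
  have h3 : ∀ st : Finset.HasAntidiagonal.antidiagonal n, Finite ({f : Fin k →₀ ℕ // f.degree = st.1.1} ×
      {c : ℕ × Fin k →₀ ℕ // m * weight m k c = st.1.2}) := by
    intro st
    have := h1 st.1.2
    have := finite_deg k st.1.1
    infer_instance
  unfold A
  rw [Nat.card_congr (fibreEquiv m k n), Nat.card_sigma,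
    ← Finset.sum_coe_sort (Finset.HasAntidiagonal.antidiagonal n)]
  refine Finset.sum_congr rfl ?_
  rintro ⟨⟨s, t⟩, hst⟩ -
  simp only
  rw [Nat.card_prod]
  congr 1
  split_ifs with hd
  · obtain ⟨q, rfl⟩ := hd
    rw [Nat.mul_div_cancel_left _ (by omega)]
    refine Nat.card_congr (Equiv.subtypeEquivRight ?_)
    intro c
    exact ⟨fun h => Nat.eq_of_mul_eq_mul_left (by omega) h, fun h => by rw [h]⟩
  · rw [Nat.card_eq_zero]
    left
    constructor
    rintro ⟨c, hc⟩
    exact hd ⟨_, hc.symm⟩

/-- The functional equation `F(x^m) = (1 - x)^k F(x)` of the generating function. -/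
theorem functional_equation (R : Type*) [CommRing R] (m k : ℕ) (hm : 2 ≤ m) :
    (1 - X : R⟦X⟧) ^ k * PowerSeries.mk (fun n => (A m k n : R)) =
      PowerSeries.expand m (by omega) (PowerSeries.mk (fun n => (A m k n : R))) := by
  have h : PowerSeries.mk (fun n => (A m k n : R)) =
      PowerSeries.mk (fun s => (Nat.card {f : Fin k →₀ ℕ // f.degree = s} : R)) *
      PowerSeries.expand m (by omega) (PowerSeries.mk (fun n => (A m k n : R))) := by
    ext n
    rw [PowerSeries.coeff_mul, PowerSeries.coeff_mk, A_rec m k hm n, Nat.cast_sum]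
    refine Finset.sum_congr rfl fun st _ => ?_
    rw [PowerSeries.coeff_mk, PowerSeries.coeff_expand, PowerSeries.coeff_mk]
    push_cast
    rfl
  conv_lhs => rw [h]
  rw [← mul_assoc, mk_card_deg, one_mul]

lemma A_zero (m k : ℕ) (hm : 2 ≤ m) : A m k 0 = 1 := by
  have key : ∀ c : ℕ × Fin k →₀ ℕ, weight m k c = 0 → c = 0 := by
    intro c hc
    by_contra hne
    obtain ⟨x, hx⟩ := Finsupp.support_nonempty_iff.mpr hne
    have h1 : c x * m ^ x.1 ≤ weight m k c := by
      unfold weight Finsupp.sum
      exact Finset.single_le_sum (f := fun a => c a * m ^ a.1) (fun _ _ => Nat.zero_le _) hx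
    rw [hc] at h1
    have h2 : 0 < c x := Nat.pos_of_ne_zero (Finsupp.mem_support_iff.mp hx)
    have h3 : 0 < m ^ x.1 := by positivity
    have := Nat.mul_pos h2 h3
    omega
  unfold A
  rw [Nat.card_eq_one_iff_exists]
  refine ⟨⟨0, by simp [weight]⟩, ?_⟩
  rintro ⟨c, hc⟩
  exact Subtype.ext (key c hc)

end Pool.Agent.Work.MP_8976f7_nt
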