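import Mathlib
import Pool.Agent.Work.MP_8976f7_nt.Basic

set_option autoImplicit false

namespace Pool.Agent.Work.MP_8976f7_nt

open PowerSeries

/-! ### Uniqueness of solutions of the functional equation -/

lemma unique_solution {R : Type*} [CommRing R] (p k : ℕ) (hp : 2 ≤ p) (D : R⟦X⟧)
    (h : (1 - X : R⟦X⟧) ^ k * D = PowerSeries.expand p (by omega) D)
    (h0 : PowerSeries.coeff 0 D = 0) : D = 0 := by
  ext n
  induction n using Nat.strong_induction_on with
  | _ n ih =>
    rcases Nat.eq_zero_or_pos n with rfl | hn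
    · simpa using h0
    · have h1 := congrArg (PowerSeries.coeff n) h
      have h2 : PowerSeries.coeff n (PowerSeries.expand p (by omega) D) = 0 := by
        rw [PowerSeries.coeff_expand]
        split_ifs with hd
        · exact ih _ (Nat.div_lt_self hn (by omega))
        · rfl
      rw [h2, PowerSeries.coeff_mul, Finset.sum_eq_single (0, n)] at h1
      · simpa using h1
      · rintro ⟨a, b⟩ hab hne
        have hab' : a + b = n := by simpa using hab
        have hb : b < n := by
          rcases Nat.lt_or_ge b n with h | h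
          · exact h
          · exfalso
            apply hne
            have : a = 0 := by omega
            subst this
            simp at hab'
            rw [hab']
        rw [ih b hb]
        simp
      · intro hne
        exfalso
        apply hne
        simp

lemma unique_solution' {R : Type*} [CommRing R] (p k : ℕ) (hp : 2 ≤ p) (U V : R⟦X⟧)
    (hU : (1 - X : R⟦X⟧) ^ k * U = PowerSeries.expand p (by omega) U)
    (hV : (1 - X : R⟦X⟧) ^ k * V = PowerSeries.expand p (by omega) V)
    (h0 : PowerSeries.coeff 0 U = PowerSeries.coeff 0 V) : U = V := by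
  have : U - V = 0 := by
    apply unique_solution p k hp
    · rw [mul_sub, hU, hV, map_sub]
    · rw [map_sub, h0, sub_self]
  exact sub_eq_zero.mp this

/-- A solution of `T(x) = (1 - x) T(x^p)` with constant term `1`. -/
lemma exists_T (R : Type*) [CommRing R] (p : ℕ) (hp : 2 ≤ p) :
    ∃ T : R⟦X⟧, T = (1 - X) * PowerSeries.expand p (by omega) T ∧ PowerSeries.coeff 0 T = 1 := by
  set F : R⟦X⟧ := PowerSeries.mk (fun n => (A p 1 n : R)) with hF
  have hF0 : PowerSeries.constantCoeff F = 1 := by
    rw [← PowerSeries.coeff_zero_eq_constantCoeff_apply, hF, PowerSeries.coeff_mk, A_zero p 1 hp]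
    simp
  have hFe := functional_equation R p 1 hp
  rw [← hF, pow_one] at hFe
  have hu : IsUnit F := by
    rw [PowerSeries.isUnit_iff_constantCoeff, hF0]
    exact isUnit_one
  obtain ⟨T, hT⟩ := hu.exists_right_inv
  refine ⟨T, ?_, ?_⟩
  · have h1 : PowerSeries.expand p (by omega) F * PowerSeries.expand p (by omega) T = 1 := by
      rw [← map_mul, hT, map_one]
    rw [← hFe] at h1
    calc T = T * ((1 - X) * F * PowerSeries.expand p (by omega) T) := by rw [h1, mul_one]
      _ = (F * T) * ((1 - X) * PowerSeries.expand p (by omega) T) := by ring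
      _ = _ := by rw [hT, one_mul]
  · have h2 := congrArg PowerSeries.constantCoeff hT
    rw [map_mul, hF0, one_mul, map_one] at h2
    rw [PowerSeries.coeff_zero_eq_constantCoeff_apply, h2]

/-- If `(1 - X ^ p) ^ N = (1 - X) ^ (k + N + r)` in `R⟦X⟧`, then the generating function of
`A p k` is `(1 - X) ^ N * T ^ r`. -/
lemma genFun_eq {R : Type*} [CommRing R] (p k N r : ℕ) (hp : 2 ≤ p) (T : R⟦X⟧)
    (hT : T = (1 - X) * PowerSeries.expand p (by omega) T) (hT0 : PowerSeries.coeff 0 T = 1)
    (hN : (1 - X ^ p : R⟦X⟧) ^ N = (1 - X) ^ (k + N + r)) :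
    PowerSeries.mk (fun n => (A p k n : R)) = (1 - X) ^ N * T ^ r := by
  apply unique_solution' p k hp
  · exact functional_equation R p k hp
  · have hTr : T ^ r = (1 - X) ^ r * (PowerSeries.expand p (by omega) T) ^ r := by
      rw [← mul_pow, ← hT]
    rw [map_mul, map_pow, map_pow, map_sub, map_one, PowerSeries.expand_X, hN, hTr]
    ring
  · rw [PowerSeries.coeff_mk, A_zero p k hp, PowerSeries.coeff_zero_eq_constantCoeff_apply,
      map_mul, map_pow, map_pow, ← PowerSeries.coeff_zero_eq_constantCoeff_apply T, hT0]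
    simp

/-! ### Sections -/

/-- The section `∑ f_{p i + a} X ^ i` of a power series. -/
noncomputable def section' {R : Type*} [CommRing R] (p a : ℕ) (f : R⟦X⟧) : R⟦X⟧ :=
  PowerSeries.mk (fun i => PowerSeries.coeff (p * i + a) f)

lemma section_mul_expand {R : Type*} [CommRing R] (p a : ℕ) (ha : a < p) (f Y : R⟦X⟧) :
    section' p a (f * PowerSeries.expand p (by omega) Y) = section' p a f * Y := by
  ext i
  unfold section'
  rw [PowerSeries.coeff_mk, PowerSeries.coeff_mul, PowerSeries.coeff_mul]
  symm
  refine Finset.sum_of_injOn (fun uj => (p * uj.1 + a, p * uj.2)) ?_ ?_ ?_ ?_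
  · rintro ⟨u, j⟩ - ⟨u', j'⟩ - h
    simp only [Prod.mk.injEq, Nat.add_right_cancel_iff] at h
    have hp : 0 < p := by omega
    ext
    · exact Nat.eq_of_mul_eq_mul_left hp h.1
    · exact Nat.eq_of_mul_eq_mul_left hp h.2
  · rintro ⟨u, j⟩ h
    have h' : u + j = i := by simpa using h
    simp only [Finset.mem_coe, Finset.HasAntidiagonal.mem_antidiagonal]
    rw [← h']
    ring
  · rintro ⟨s, t⟩ hst hnot
    have hst' : s + t = p * i + a := by simpa using hst
    rw [PowerSeries.coeff_expand]
    split_ifs with hd
    · exfalso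
      apply hnot
      obtain ⟨j, rfl⟩ := hd
      have hj : j ≤ i := by
        by_contra hlt
        push Not at hlt
        have : p * (i + 1) ≤ p * j := Nat.mul_le_mul_left _ hlt
        rw [mul_add, mul_one] at this
        omega
      refine ⟨(i - j, j), ?_, ?_⟩
      · simp only [Finset.mem_coe, Finset.HasAntidiagonal.mem_antidiagonal]
        omega
      · simp only [Prod.mk.injEq, and_true]
        have : p * (i - j) = p * i - p * j := Nat.mul_sub p i j
        have h3 : p * j ≤ p * i := Nat.mul_le_mul_left _ hj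
        omega
    · simp
  · rintro ⟨u, j⟩ h
    simp only [PowerSeries.coeff_mk, PowerSeries.coeff_expand_mul]

/-! ### Polynomials modulo `M` as lists of natural numbers -/

/-- The power series with the given list of coefficients. -/
noncomputable def ev (R : Type*) [CommRing R] : List ℕ → R⟦X⟧
  | [] => 0
  | a :: l => PowerSeries.C (a : R) + X * ev R l

lemma coeff_ev {R : Type*} [CommRing R] (l : List ℕ) (n : ℕ) :
    PowerSeries.coeff n (ev R l) = (l.getD n 0 : R) := by
  induction l generalizing n with
  | nil => simp [ev]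
  | cons a l ih =>
    cases n with
    | zero => simp [ev]
    | succ n =>
      simp only [ev, map_add, PowerSeries.coeff_succ_X_mul, ih]
      rw [PowerSeries.coeff_C, if_neg (by omega), zero_add]
      rfl

/-- Multiplication by `1 - X` modulo `M`; `prev` is the previous coefficient. -/
def mulOneSub (M : ℕ) : ℕ → List ℕ → List ℕ
  | prev, [] => [((M - 1) * prev) % M]
  | prev, a :: l => ((a + (M - 1) * prev) % M) :: mulOneSub M a l

lemma ev_mulOneSub (M : ℕ) (hM : 0 < M) (prev : ℕ) (l : List ℕ) :
    ev (ZMod M) (mulOneSub M prev l) =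
      (1 - X) * ev (ZMod M) l - PowerSeries.C (prev : ZMod M) := by
  induction l generalizing prev with
  | nil =>
    simp only [mulOneSub, ev]
    rw [ZMod.natCast_mod]
    push_cast [Nat.cast_sub (show 1 ≤ M from hM)]
    simp
  | cons a l ih =>
    simp only [mulOneSub, ev, ih]
    rw [ZMod.natCast_mod]
    push_cast [Nat.cast_sub (show 1 ≤ M from hM)]
    simp only [CharP.cast_eq_zero, zero_sub, neg_mul, one_mul, map_add, map_neg]
    ring

/-- Multiplication by `(1 - X) ^ r` modulo `M`. -/
def mulPow (M : ℕ) : ℕ → List ℕ → List ℕ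
  | 0, l => l
  | r + 1, l => mulPow M r (mulOneSub M 0 l)

lemma ev_mulPow (M : ℕ) (hM : 0 < M) (r : ℕ) (l : List ℕ) :
    ev (ZMod M) (mulPow M r l) = (1 - X) ^ r * ev (ZMod M) l := by
  induction r generalizing l with
  | zero => simp [mulPow]
  | succ r ih =>
    rw [mulPow, ih, ev_mulOneSub M hM]
    simp
    ring

/-- Remove trailing zeros. -/
def rtrim : List ℕ → List ℕ
  | [] => []
  | a :: l => match rtrim l with
    | [] => if a = 0 then [] else [a]
    | b :: l' => a :: b :: l'

lemma ev_rtrim (R : Type*) [CommRing R] (l : List ℕ) : ev R (rtrim l) = ev R l := by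
  induction l with
  | nil => rfl
  | cons a l ih =>
    rw [rtrim]
    split
    · rename_i h
      rw [h] at ih
      split_ifs with ha
      · subst ha
        simp [ev, ← ih]
      · simp [ev, ← ih]
    · rename_i b l' h
      rw [h] at ih
      simp only [ev] at ih ⊢
      rw [ih]

/-- Every `p`-th entry, starting with the entry of index `a`. -/
def sec (p a : ℕ) (l : List ℕ) : List ℕ :=
  (List.range (l.length / p + 1)).map (fun i => l.getD (p * i + a) 0)

lemma ev_sec {R : Type*} [CommRing R] (p a : ℕ) (hp : 0 < p) (l : List ℕ) :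
    ev R (sec p a l) = section' p a (ev R l) := by
  ext i
  unfold section'
  rw [PowerSeries.coeff_mk, coeff_ev, coeff_ev, sec]
  rcases Nat.lt_or_ge i (l.length / p + 1) with h | h
  · rw [List.getD_eq_getElem?_getD, List.getElem?_map, List.getElem?_range h]
    simp
  · have h1 : l.length ≤ p * i + a := by
      have h2 : l.length < p * (l.length / p + 1) := by
        have := Nat.div_add_mod l.length p
        have h3 := Nat.mod_lt l.length hp
        rw [mul_add, mul_one]
        omega
      have h3 : p * (l.length / p + 1) ≤ p * i := Nat.mul_le_mul_left _ h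
      omega
    rw [List.getD_eq_default _ _ (by simpa using h), List.getD_eq_default _ _ h1]

/-- The transition: multiply by `(1 - X) ^ r`, take the section `a`, and normalise. -/
def next (p M r a : ℕ) (l : List ℕ) : List ℕ := rtrim (sec p a (mulPow M r l))

/-- If `S` is a set of polynomials closed under the transitions and without a zero constant
term, then no coefficient of `P * T ^ r`, `P ∈ S`, vanishes. -/
theorem coeff_ne_zero (p M r : ℕ) (hp : 2 ≤ p) (hM : 0 < M) (T : (ZMod M)⟦X⟧)
    (hT : T = (1 - X) * PowerSeries.expand p (by omega) T) (hT0 : PowerSeries.coeff 0 T = 1)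
    (S : List (List ℕ)) (hS : ∀ l ∈ S, ∀ a < p, next p M r a l ∈ S)
    (h0 : ∀ l ∈ S, (l.getD 0 0) % M ≠ 0) (n : ℕ) :
    ∀ l ∈ S, PowerSeries.coeff n (ev (ZMod M) l * T ^ r) ≠ 0 := by
  induction n using Nat.strong_induction_on with
  | _ n ih =>
    intro l hl
    rcases Nat.eq_zero_or_pos n with rfl | hn
    · rw [PowerSeries.coeff_zero_eq_constantCoeff_apply, map_mul, map_pow,
        ← PowerSeries.coeff_zero_eq_constantCoeff_apply T, hT0, one_pow, mul_one,
        ← PowerSeries.coeff_zero_eq_constantCoeff_apply, coeff_ev]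
      intro h
      apply h0 l hl
      rw [ZMod.natCast_eq_zero_iff] at h
      exact Nat.mod_eq_zero_of_dvd h
    · have hlt : n / p < n := Nat.div_lt_self hn (by omega)
      have ha : n % p < p := Nat.mod_lt _ (by omega)
      have h1 := ih (n / p) hlt _ (hS l hl (n % p) ha)
      have h2 : ev (ZMod M) l * T ^ r =
          ev (ZMod M) (mulPow M r l) * PowerSeries.expand p (by omega) (T ^ r) := by
        have hTr : T ^ r = (1 - X) ^ r * (PowerSeries.expand p (by omega) T) ^ r := by
          rw [← mul_pow, ← hT]
        rw [ev_mulPow M hM, map_pow, hTr]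
        ring
      rw [next, ev_rtrim, ev_sec p _ (by omega), ← section_mul_expand p _ ha, section',
        PowerSeries.coeff_mk, Nat.div_add_mod] at h1
      rw [h2]
      exact h1

theorem A_ne_zero (p M k N r : ℕ) (hp : 2 ≤ p) (hM : 0 < M)
    (hN : (1 - X ^ p : (ZMod M)⟦X⟧) ^ N = (1 - X) ^ (k + N + r))
    (S : List (List ℕ)) (hS : ∀ l ∈ S, ∀ a < p, next p M r a l ∈ S)
    (h0 : ∀ l ∈ S, (l.getD 0 0) % M ≠ 0)
    (hinit : mulPow M N [1] ∈ S) (n : ℕ) : ¬ M ∣ A p k n := by
  obtain ⟨T, hT, hT0⟩ := exists_T (ZMod M) p hp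
  have h1 := coeff_ne_zero p M r hp hM T hT hT0 S hS h0 n _ hinit
  have h2 : ev (ZMod M) (mulPow M N [1]) = (1 - X) ^ N := by
    rw [ev_mulPow M hM]
    simp [ev]
  rw [h2, ← genFun_eq p k N r hp T hT hT0 hN, PowerSeries.coeff_mk] at h1
  intro hd
  exact h1 ((ZMod.natCast_eq_zero_iff _ _).mpr hd)

end Pool.Agent.Work.MP_8976f7_nt
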