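import Mathlib
import Pool.Agent.Work.MP_8976f7_nt.Automaton

set_option autoImplicit false

namespace Pool.Agent.Work.MP_8976f7_nt

/-- The 70 states (polynomials modulo 32, as coefficient lists) for `p = 2`, `k = 11`. -/
def statesTwo : List (List ℕ) :=
  [
    [1, 16, 24, 16, 28, 16, 8, 16, 6, 16, 8, 16, 28, 16, 24, 16, 1],
    [1, 18, 1, 24, 2, 12, 10, 24, 29, 18, 21],
    [11, 14, 3, 8, 22, 20, 30, 8, 31, 14, 31],
    [1, 17, 5, 5, 3, 19, 23, 23],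
    [13, 29, 1, 1, 7, 23, 11, 11],
    [11, 11, 23, 7, 1, 1, 29, 13],
    [23, 23, 19, 3, 5, 5, 17, 1],
    [1, 26, 23, 12, 31, 26, 9],
    [12, 12, 24, 24, 28, 28],
    [13, 18, 11, 28, 19, 18, 21],
    [28, 28, 24, 24, 12, 12],
    [11, 14, 13, 4, 21, 14, 19],
    [20, 20, 8, 8, 4, 4],
    [23, 6, 1, 20, 9, 6, 31],
    [4, 4, 8, 8, 20, 20],
    [1, 31, 10, 30, 5, 19],
    [21, 19, 18, 6, 9, 23],
    [12, 20, 24, 8, 28, 4],
    [16, 0, 0, 0, 16],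
    [13, 19, 2, 6, 1, 23],
    [17, 23, 10, 14, 21, 11],
    [28, 4, 24, 8, 12, 20],
    [11, 21, 14, 10, 23, 17],
    [23, 1, 6, 2, 19, 13],
    [20, 12, 8, 24, 4, 28],
    [23, 9, 6, 18, 19, 21],
    [19, 5, 30, 10, 31, 1],
    [4, 28, 8, 24, 20, 12],
    [1, 25, 2, 26, 29, 13],
    [26, 24, 28, 24, 26],
    [21, 5, 10, 18, 1, 9],
    [10, 24, 28, 24, 10],
    [24, 0, 16, 0, 24],
    [13, 5, 26, 18, 25, 9],
    [18, 24, 12, 24, 18],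
    [17, 1, 2, 10, 13, 21],
    [2, 24, 12, 24, 2],
    [11, 19, 22, 30, 31, 15],
    [30, 8, 20, 8, 30],
    [23, 7, 14, 6, 27, 19],
    [14, 8, 20, 8, 14],
    [8, 0, 16, 0, 8],
    [23, 31, 14, 22, 27, 11],
    [22, 8, 4, 8, 22],
    [19, 3, 6, 30, 7, 31],
    [6, 8, 4, 8, 6],
    [1, 15, 26, 14, 21, 19],
    [20, 0, 8, 0, 4],
    [26, 8, 12, 8, 10],
    [22, 24, 20, 24, 6],
    [21, 3, 2, 22, 25, 23],
    [28, 0, 24, 0, 12],
    [10, 8, 12, 8, 26],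
    [6, 24, 20, 24, 22],
    [13, 3, 18, 22, 17, 23],
    [4, 0, 8, 0, 20],
    [18, 8, 28, 8, 2],
    [30, 24, 4, 24, 14],
    [17, 7, 26, 30, 5, 11],
    [12, 0, 24, 0, 28],
    [2, 8, 28, 8, 18],
    [14, 24, 4, 24, 30],
    [11, 5, 30, 26, 7, 17],
    [23, 17, 22, 18, 3, 13],
    [23, 25, 22, 2, 3, 21],
    [19, 21, 14, 26, 15, 1],
    [20, 16, 24, 16, 20],
    [28, 16, 8, 16, 28],
    [4, 16, 24, 16, 4],
    [12, 16, 8, 16, 12]]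

theorem statesTwo_closed : ∀ l ∈ statesTwo, ∀ a < 2, next 2 32 5 a l ∈ statesTwo := by
  decide +kernel

theorem statesTwo_ne : ∀ l ∈ statesTwo, (l.getD 0 0) % 32 ≠ 0 := by
  decide +kernel

theorem statesTwo_init : mulPow 32 16 [1] ∈ statesTwo := by
  decide +kernel

open PowerSeries in
lemma pow_identity_two :
    (1 - X ^ 2 : (ZMod 32)⟦X⟧) ^ 16 = (1 - X) ^ (11 + 16 + 5) := by
  have h1 : ((2 : ℕ) : (ZMod 32)⟦X⟧) ∣ (1 - X ^ 2) - (1 - X) ^ 2 := by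
    refine ⟨X - X ^ 2, ?_⟩
    push_cast
    ring
  have h2 := dvd_sub_pow_of_dvd_sub h1 4
  have h3 : ((2 : ℕ) : (ZMod 32)⟦X⟧) ^ (4 + 1) = 0 := by
    have : ((32 : ℕ) : (ZMod 32)⟦X⟧) = 0 := by
      rw [← map_natCast (PowerSeries.C (R := ZMod 32)) 32]
      rw [ZMod.natCast_self, map_zero]
    rw [← this]
    norm_num
  rw [h3, zero_dvd_iff, sub_eq_zero] at h2
  norm_num at h2 ⊢
  rw [h2, ← pow_mul]

theorem not_dvd_two (n : ℕ) : ¬ 32 ∣ A 2 11 n :=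
  A_ne_zero 2 32 11 16 5 (by norm_num) (by norm_num) pow_identity_two statesTwo
    statesTwo_closed statesTwo_ne statesTwo_init n

end Pool.Agent.Work.MP_8976f7_nt
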